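import Pool.Agent.H87D.GoodMain
import Pool.Agent.H87D.BadMain

/-!
The exact threshold for random sets in the Erdős discrepancy problem.

Let `ρ` be a non-increasing sequence in `[0,1]` which is not identically `1`, and let `S` be a random
set of positive integers containing `k` with probability `ρ k`, independently for different `k`.
If `log (k ρ k) / sqrt (log k * log log k)` is bounded above, then `S` is almost surely bad;
otherwise `S` is almost surely good.
-/

namespace Pool.Agent.Results.MP_726576_nt.RandomThreshold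

open MeasureTheory ProbabilityTheory Filter
open Pool.Agent.H91.Discrepancy Pool.Agent.H87D

/-- **Exact threshold for random sets.** -/
theorem result {Ω : Type*} [MeasurableSpace Ω] (P : Measure Ω) [IsProbabilityMeasure P]
    (ρ : ℕ → ℝ) (hρ0 : ∀ k, 1 ≤ k → 0 ≤ ρ k) (hρ1 : ∀ k, 1 ≤ k → ρ k ≤ 1)
    (hanti : ∀ k l, 1 ≤ k → k ≤ l → ρ l ≤ ρ k) (hne : ∃ k, 1 ≤ k ∧ ρ k < 1)
    (S : Ω → Set ℕ) (hmeas : ∀ k, 1 ≤ k → MeasurableSet {ω | k ∈ S ω})
    (hprob : ∀ k, 1 ≤ k → P {ω | k ∈ S ω} = ENNReal.ofReal (ρ k))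
    (hind : iIndepSet (fun k : ℕ => {ω | k + 1 ∈ S ω}) P) :
    ((∃ C : ℝ, ∀ᶠ k : ℕ in atTop,
        k * ρ k ≤ Real.exp (C * Real.sqrt (Real.log k * Real.log (Real.log k)))) →
      ∀ᵐ ω ∂P, IsBadSet (S ω)) ∧
    ((¬ ∃ C : ℝ, ∀ᶠ k : ℕ in atTop,
        k * ρ k ≤ Real.exp (C * Real.sqrt (Real.log k * Real.log (Real.log k)))) →
      ∀ᵐ ω ∂P, IsGoodSet (S ω)) := by
  have hD : Dens ρ := ⟨hρ0, hρ1, hanti⟩
  have hS : IsRandomSet P ρ S := ⟨hmeas, hprob, hind⟩
  refine ⟨?_, ?_⟩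
  · rintro ⟨C, hC⟩
    exact bad_main P ρ S hS hD C hC
  · intro hC
    refine good_main P ρ S hS hD hne ?_
    intro lam
    push Not at hC
    exact hC lam

end Pool.Agent.Results.MP_726576_nt.RandomThreshold
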