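import Mathlib
import Pool.Agent.H91.Discrepancy

/-!
The set `{n^2 - 1 : n ≥ 2}` is bad for the Erdős discrepancy problem.  The witness is the
completely multiplicative function `f` with `f 2 = 1` and `f m = (-2 / m)` (Jacobi symbol) for
odd `m`, that is `f m = 1` for `m ≡ 1, 3` modulo `8` and `f m = -1` for `m ≡ 5, 7` modulo `8`.
-/

namespace Pool.Agent.Results.MP_726576_nt.SquareMinusOneBad

open Pool.Agent.H91.Discrepancy

/-- The completely multiplicative function with value `1` at `2`, extending the quadratic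
character `(-2 / ·)` modulo `8` on odd numbers. -/
noncomputable def chi (k : ℕ) : ℂ := ((ZMod.χ₈' ((ordCompl[2] k : ℕ) : ZMod 8) : ℤ) : ℂ)

theorem chi_odd {a : ℕ} (ha : a % 2 = 1) :
    chi a = if a % 8 = 1 ∨ a % 8 = 3 then 1 else -1 := by
  unfold chi
  rw [(Nat.ordCompl_eq_self_iff_zero_or_not_dvd a Nat.prime_two).mpr (Or.inr (by omega)),
    ZMod.χ₈'_nat_eq_if_mod_eight, if_neg (by omega)]
  split_ifs <;> simp

theorem chi_mul (a b : ℕ) : chi (a * b) = chi a * chi b := by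
  unfold chi
  rw [Nat.ordCompl_mul, Nat.cast_mul, map_mul, Int.cast_mul]

theorem chi_two_mul (a : ℕ) : chi (2 * a) = chi a := by
  unfold chi
  have := Nat.ordCompl_self_pow_mul a 1 Nat.prime_two
  rw [pow_one] at this
  rw [this]

theorem norm_chi {k : ℕ} (hk : 1 ≤ k) : ‖chi k‖ = 1 := by
  have hodd : (ordCompl[2] k) % 2 = 1 := by
    have := Nat.not_dvd_ordCompl Nat.prime_two (show k ≠ 0 by omega)
    omega
  unfold chi
  rw [ZMod.χ₈'_nat_eq_if_mod_eight, if_neg (by omega)]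
  split_ifs <;> simp

/-- The value of `chi` at `n ^ 2 - 1`, as a function of `j = n - 2`. -/
noncomputable def F (j : ℕ) : ℂ := chi ((j + 2) ^ 2 - 1)

theorem F_eq (j : ℕ) : F j = chi (j + 1) * chi (j + 3) := by
  unfold F
  rw [← chi_mul]
  congr 1
  have : (j + 2) ^ 2 = (j + 1) * (j + 3) + 1 := by ring
  omega

/-- The sum of `F` over the block `4 b, 4 b + 1, 4 b + 2, 4 b + 3`, where `j = n - 2`. -/
theorem block (b : ℕ) :
    F (4 * b) + F (4 * b + 1) + F (4 * b + 2) + F (4 * b + 3)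
      = if b % 8 = 0 ∨ b % 8 = 6 then 2 else if b % 8 = 2 ∨ b % 8 = 4 then -2 else 0 := by
  -- the terms with odd argument of `chi`
  have e1 : F (4 * b) + F (4 * b + 2) = 0 := by
    rw [F_eq, F_eq, chi_odd (show (4 * b + 1) % 2 = 1 by omega),
      show 4 * b + 2 + 1 = 4 * b + 3 by ring,
      show 4 * b + 2 + 3 = 4 * b + 5 by ring, chi_odd (show (4 * b + 3) % 2 = 1 by omega),
      chi_odd (show (4 * b + 5) % 2 = 1 by omega)]
    rcases Nat.even_or_odd' b with ⟨c, rfl | rfl⟩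
    · have h1 : (4 * (2 * c) + 1) % 8 = 1 := by omega
      have h2 : (4 * (2 * c) + 3) % 8 = 3 := by omega
      have h3 : (4 * (2 * c) + 5) % 8 = 5 := by omega
      rw [h1, h2, h3]; norm_num
    · have h1 : (4 * (2 * c + 1) + 1) % 8 = 5 := by omega
      have h2 : (4 * (2 * c + 1) + 3) % 8 = 7 := by omega
      have h3 : (4 * (2 * c + 1) + 5) % 8 = 1 := by omega
      rw [h1, h2, h3]; norm_num
  -- the two terms with even arguments of `chi`
  have e2 : F (4 * b + 1) + F (4 * b + 3)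
      = chi (b + 1) * (chi (2 * b + 1) + chi (2 * b + 3)) := by
    rw [F_eq, F_eq, show 4 * b + 1 + 1 = 2 * (2 * b + 1) by ring,
      show 4 * b + 1 + 3 = 2 * (2 * (b + 1)) by ring,
      show 4 * b + 3 + 3 = 2 * (2 * b + 3) by ring]
    rw [chi_two_mul, chi_two_mul, chi_two_mul, chi_two_mul]
    ring
  have e3 : F (4 * b) + F (4 * b + 1) + F (4 * b + 2) + F (4 * b + 3)
      = (F (4 * b) + F (4 * b + 2)) + (F (4 * b + 1) + F (4 * b + 3)) := by ring
  rw [e3, e1, e2, zero_add]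
  rcases Nat.even_or_odd' b with ⟨c, rfl | rfl⟩
  · -- `b` even: `b + 1` is odd
    rw [chi_odd (show (2 * c + 1) % 2 = 1 by omega),
      chi_odd (show (2 * (2 * c) + 1) % 2 = 1 by omega),
      chi_odd (show (2 * (2 * c) + 3) % 2 = 1 by omega)]
    have hc : c % 4 = 0 ∨ c % 4 = 1 ∨ c % 4 = 2 ∨ c % 4 = 3 := by omega
    rcases hc with hc | hc | hc | hc
    · have h1 : (2 * c + 1) % 8 = 1 := by omega
      have h2 : (2 * (2 * c) + 1) % 8 = 1 := by omega
      have h3 : (2 * (2 * c) + 3) % 8 = 3 := by omega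
      have h4 : (2 * c) % 8 = 0 := by omega
      rw [h1, h2, h3, h4]; norm_num
    · have h1 : (2 * c + 1) % 8 = 3 := by omega
      have h2 : (2 * (2 * c) + 1) % 8 = 5 := by omega
      have h3 : (2 * (2 * c) + 3) % 8 = 7 := by omega
      have h4 : (2 * c) % 8 = 2 := by omega
      rw [h1, h2, h3, h4]; norm_num
    · have h1 : (2 * c + 1) % 8 = 5 := by omega
      have h2 : (2 * (2 * c) + 1) % 8 = 1 := by omega
      have h3 : (2 * (2 * c) + 3) % 8 = 3 := by omega
      have h4 : (2 * c) % 8 = 4 := by omega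
      rw [h1, h2, h3, h4]; norm_num
    · have h1 : (2 * c + 1) % 8 = 7 := by omega
      have h2 : (2 * (2 * c) + 1) % 8 = 5 := by omega
      have h3 : (2 * (2 * c) + 3) % 8 = 7 := by omega
      have h4 : (2 * c) % 8 = 6 := by omega
      rw [h1, h2, h3, h4]; norm_num
  · -- `b` odd: the two characters cancel
    rw [chi_odd (show (2 * (2 * c + 1) + 1) % 2 = 1 by omega),
      chi_odd (show (2 * (2 * c + 1) + 3) % 2 = 1 by omega)]
    have h4 : ¬ ((2 * c + 1) % 8 = 0 ∨ (2 * c + 1) % 8 = 6) := by omega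
    have h5 : ¬ ((2 * c + 1) % 8 = 2 ∨ (2 * c + 1) % 8 = 4) := by omega
    rw [if_neg h4, if_neg h5]
    rcases Nat.even_or_odd' c with ⟨e, rfl | rfl⟩
    · have h1 : (2 * (2 * (2 * e) + 1) + 1) % 8 = 3 := by omega
      have h2 : (2 * (2 * (2 * e) + 1) + 3) % 8 = 5 := by omega
      rw [h1, h2]; norm_num
    · have h1 : (2 * (2 * (2 * e + 1) + 1) + 1) % 8 = 7 := by omega
      have h2 : (2 * (2 * (2 * e + 1) + 1) + 3) % 8 = 1 := by omega
      rw [h1, h2]; norm_num

theorem sum_blocks (B : ℕ) :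
    ∑ j ∈ Finset.range (4 * B), F j
      = if B % 8 = 1 ∨ B % 8 = 2 then 2 else if B % 8 = 5 ∨ B % 8 = 6 then -2 else 0 := by
  induction B with
  | zero => simp
  | succ B ih =>
    have hs : ∑ j ∈ Finset.range (4 * (B + 1)), F j
        = ∑ j ∈ Finset.range (4 * B), F j
          + (F (4 * B) + F (4 * B + 1) + F (4 * B + 2) + F (4 * B + 3)) := by
      rw [show 4 * (B + 1) = 4 * B + 1 + 1 + 1 + 1 by ring, Finset.sum_range_succ,
        Finset.sum_range_succ, Finset.sum_range_succ, Finset.sum_range_succ]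
      ring
    rw [hs, ih, block]
    have hB : B % 8 = 0 ∨ B % 8 = 1 ∨ B % 8 = 2 ∨ B % 8 = 3 ∨ B % 8 = 4 ∨ B % 8 = 5 ∨
      B % 8 = 6 ∨ B % 8 = 7 := by omega
    rcases hB with h | h | h | h | h | h | h | h
    · have h' : (B + 1) % 8 = 1 := by omega
      rw [h, h']; norm_num
    · have h' : (B + 1) % 8 = 2 := by omega
      rw [h, h']; norm_num
    · have h' : (B + 1) % 8 = 3 := by omega
      rw [h, h']; norm_num
    · have h' : (B + 1) % 8 = 4 := by omega
      rw [h, h']; norm_num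
    · have h' : (B + 1) % 8 = 5 := by omega
      rw [h, h']; norm_num
    · have h' : (B + 1) % 8 = 6 := by omega
      rw [h, h']; norm_num
    · have h' : (B + 1) % 8 = 7 := by omega
      rw [h, h']; norm_num
    · have h' : (B + 1) % 8 = 0 := by omega
      rw [h, h']; norm_num

theorem norm_F (j : ℕ) : ‖F j‖ = 1 := by
  rw [F_eq, norm_mul, norm_chi (by omega), norm_chi (by omega), one_mul]

theorem norm_sum_le (M : ℕ) : ‖∑ j ∈ Finset.range M, F j‖ ≤ 5 := by
  have hblock : ∀ B : ℕ, ‖∑ j ∈ Finset.range (4 * B), F j‖ ≤ 2 := by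
    intro B
    rw [sum_blocks]
    split_ifs <;> simp
  have hM : M = 4 * (M / 4) + M % 4 := by omega
  have hr : M % 4 = 0 ∨ M % 4 = 1 ∨ M % 4 = 2 ∨ M % 4 = 3 := by omega
  have hb := hblock (M / 4)
  rcases hr with h | h | h | h
  · rw [hM, h, add_zero]; linarith
  · rw [hM, h, Finset.sum_range_succ]
    refine (norm_add_le _ _).trans ?_
    rw [norm_F]; linarith
  · rw [hM, h, show 4 * (M / 4) + 2 = 4 * (M / 4) + 1 + 1 by ring, Finset.sum_range_succ,
      Finset.sum_range_succ]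
    refine (norm_add_le _ _).trans ?_
    have := norm_add_le (∑ j ∈ Finset.range (4 * (M / 4)), F j) (F (4 * (M / 4)))
    rw [norm_F] at this ⊢
    linarith
  · rw [hM, h, show 4 * (M / 4) + 3 = 4 * (M / 4) + 1 + 1 + 1 by ring, Finset.sum_range_succ,
      Finset.sum_range_succ, Finset.sum_range_succ]
    refine (norm_add_le _ _).trans ?_
    have h1 := norm_add_le (∑ j ∈ Finset.range (4 * (M / 4)), F j) (F (4 * (M / 4)))
    have h2 := norm_add_le (∑ j ∈ Finset.range (4 * (M / 4)), F j + F (4 * (M / 4)))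
      (F (4 * (M / 4) + 1))
    rw [norm_F] at h1 h2 ⊢
    linarith

/-- The set of all positive integers of the form `n ^ 2 - 1` is bad. -/
theorem result : IsBadSet {m : ℕ | 1 ≤ m ∧ ∃ n : ℕ, 1 ≤ n ∧ m + 1 = n ^ 2} := by
  have hset : {m : ℕ | 1 ≤ m ∧ ∃ n : ℕ, 1 ≤ n ∧ m + 1 = n ^ 2}
      = Set.range (fun j : ℕ => (j + 2) ^ 2 - 1) := by
    ext m
    constructor
    · rintro ⟨hm, n, hn, h⟩
      have h2 : 2 ≤ n := by
        rcases Nat.lt_or_ge n 2 with h' | h'
        · have : n = 1 := by omega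
          rw [this] at h; omega
        · exact h'
      refine ⟨n - 2, ?_⟩
      show (n - 2 + 2) ^ 2 - 1 = m
      rw [Nat.sub_add_cancel h2]; omega
    · rintro ⟨j, rfl⟩
      have h1 : 2 ^ 2 ≤ (j + 2) ^ 2 := Nat.pow_le_pow_left (by omega) 2
      refine ⟨?_, j + 2, by omega, ?_⟩
      · show 1 ≤ (j + 2) ^ 2 - 1
        omega
      · show (j + 2) ^ 2 - 1 + 1 = (j + 2) ^ 2
        omega
  rw [hset]
  refine isBadSet_range (g := fun j : ℕ => (j + 2) ^ 2 - 1) ?_ (by norm_num) chi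
    (fun k hk => norm_chi hk) ?_ 5 ?_
  · intro i j hij
    have h1 : i + 2 < j + 2 := by omega
    have h2 : (i + 2) ^ 2 < (j + 2) ^ 2 := Nat.pow_lt_pow_left h1 (by norm_num)
    have h3 : 2 ^ 2 ≤ (i + 2) ^ 2 := Nat.pow_le_pow_left (by omega) 2
    show (i + 2) ^ 2 - 1 < (j + 2) ^ 2 - 1
    omega
  · intro d j _
    exact chi_mul _ _
  · intro M
    exact norm_sum_le M

end Pool.Agent.Results.MP_726576_nt.SquareMinusOneBad
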