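import Mathlib
import Pool.Agent.H91.Discrepancy

/-!
The set `{n^2 + 1 : n ≥ 1}` is bad for the Erdős discrepancy problem.  The witness is the
completely multiplicative function which is `-1` at the prime `2` and `1` at all odd primes.
-/

namespace Pool.Agent.Results.MP_726576_nt.SquarePlusOneBad

open Pool.Agent.H91.Discrepancy

/-- The completely multiplicative function with value `-1` at `2` and `1` at the odd primes. -/
noncomputable def twoSign (k : ℕ) : ℂ := (-1) ^ (k.factorization 2)

theorem norm_twoSign (k : ℕ) : ‖twoSign k‖ = 1 := by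
  simp [twoSign]

theorem twoSign_mul {a b : ℕ} (ha : a ≠ 0) (hb : b ≠ 0) :
    twoSign (a * b) = twoSign a * twoSign b := by
  unfold twoSign
  rw [Nat.factorization_mul ha hb, Finsupp.add_apply, pow_add]

theorem twoSign_odd {a : ℕ} (ha : a % 2 = 1) : twoSign a = 1 := by
  unfold twoSign
  rw [Nat.factorization_eq_zero_of_not_dvd (by omega), pow_zero]

theorem twoSign_two : twoSign 2 = -1 := by
  unfold twoSign
  rw [Nat.Prime.factorization_self Nat.prime_two, pow_one]

theorem twoSign_val (j : ℕ) : twoSign ((j + 1) ^ 2 + 1) = if Even j then -1 else 1 := by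
  split_ifs with h
  · obtain ⟨m, rfl⟩ := h
    have : (m + m + 1) ^ 2 + 1 = 2 * (2 * (m ^ 2 + m) + 1) := by ring
    rw [this, twoSign_mul (by norm_num) (by omega), twoSign_two, twoSign_odd (by omega), mul_one]
  · rw [Nat.not_even_iff_odd] at h
    obtain ⟨m, rfl⟩ := h
    have : (2 * m + 1 + 1) ^ 2 + 1 = 2 * (2 * (m + 1) ^ 2) + 1 := by ring
    rw [this, twoSign_odd (by omega)]

theorem sum_val (M : ℕ) :
    ∑ j ∈ Finset.range M, twoSign ((j + 1) ^ 2 + 1) = if Even M then 0 else -1 := by
  induction M with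
  | zero => simp
  | succ M ih =>
    rw [Finset.sum_range_succ, ih, twoSign_val]
    by_cases h : Even M
    · have h' : ¬ Even (M + 1) := by rw [Nat.even_add_one]; simpa using h
      rw [if_pos h, if_pos h, if_neg h', zero_add]
    · have h' : Even (M + 1) := by rw [Nat.even_add_one]; exact h
      rw [if_neg h, if_neg h, if_pos h']; ring

/-- The set of all `n ^ 2 + 1` with `n ≥ 1` is bad. -/
theorem result : IsBadSet {m : ℕ | ∃ n : ℕ, 1 ≤ n ∧ m = n ^ 2 + 1} := by
  have hset : {m : ℕ | ∃ n : ℕ, 1 ≤ n ∧ m = n ^ 2 + 1}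
      = Set.range (fun j : ℕ => (j + 1) ^ 2 + 1) := by
    ext m
    constructor
    · rintro ⟨n, hn, rfl⟩
      exact ⟨n - 1, by simp only [Nat.sub_add_cancel hn]⟩
    · rintro ⟨j, rfl⟩
      exact ⟨j + 1, by omega, rfl⟩
  rw [hset]
  refine isBadSet_range (g := fun j : ℕ => (j + 1) ^ 2 + 1) ?_ (by norm_num) twoSign
    (fun k _ => norm_twoSign k) ?_ 1 ?_
  · intro i j hij
    have h1 : i + 1 < j + 1 := by omega
    have h2 : (i + 1) ^ 2 < (j + 1) ^ 2 := Nat.pow_lt_pow_left h1 (by norm_num)
    show (i + 1) ^ 2 + 1 < (j + 1) ^ 2 + 1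
    omega
  · intro d j hd
    exact twoSign_mul (by omega) (by positivity)
  · intro M
    rw [sum_val]
    split_ifs <;> simp

end Pool.Agent.Results.MP_726576_nt.SquarePlusOneBad
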