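import Mathlib
import Pool.Agent.H91.Discrepancy

/-!
The set `{2^n + 1 : n ≥ 1}` is bad for the Erdős discrepancy problem.  The witness is the
completely multiplicative function `f` with `f 7 = 1` and `f m = ζ ^ q(m)` for `m` prime to `7`,
where `ζ` is a primitive seventh root of unity and `q(m) = (m ^ 6 - 1) / 7` modulo `7` is the
Fermat quotient to the prime `7`.  The numbers `2 ^ n + 1` are never divisible by `7`, and over
the period `21` of `2 ^ n` modulo `49` their Fermat quotients take each residue modulo `7`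
three times.
-/

namespace Pool.Agent.Results.MP_726576_nt.TwoPowPlusOneBad

open Pool.Agent.H91.Discrepancy

/-- A primitive seventh root of unity. -/
noncomputable def zeta : ℂ := Complex.exp (2 * Real.pi * Complex.I / (7 : ℕ))

theorem zeta_prim : IsPrimitiveRoot zeta 7 := Complex.isPrimitiveRoot_exp 7 (by norm_num)

theorem zeta_pow_seven : zeta ^ 7 = 1 := zeta_prim.pow_eq_one

theorem norm_zeta : ‖zeta‖ = 1 := zeta_prim.norm'_eq_one (by norm_num)

theorem zeta_pow_mod (n : ℕ) : zeta ^ n = zeta ^ (n % 7) := by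
  conv_lhs => rw [← Nat.div_add_mod n 7, pow_add, pow_mul, zeta_pow_seven, one_pow, one_mul]

/-- The completely multiplicative function built from the Fermat quotient to the prime `7`. -/
noncomputable def f (k : ℕ) : ℂ := zeta ^ ((ordCompl[7] k) ^ 6 / 7)

theorem norm_f (k : ℕ) : ‖f k‖ = 1 := by
  unfold f
  rw [norm_pow, norm_zeta, one_pow]

theorem pow_six_mod {a : ℕ} (ha : ¬ 7 ∣ a) : a ^ 6 % 7 = 1 := by
  have h : a % 7 = 1 ∨ a % 7 = 2 ∨ a % 7 = 3 ∨ a % 7 = 4 ∨ a % 7 = 5 ∨ a % 7 = 6 := by omega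
  rw [Nat.pow_mod]
  rcases h with h | h | h | h | h | h <;> rw [h]

theorem f_mul {a b : ℕ} (ha : a ≠ 0) (hb : b ≠ 0) : f (a * b) = f a * f b := by
  unfold f
  rw [Nat.ordCompl_mul]
  have h7 : Nat.Prime 7 := by norm_num
  have hA := pow_six_mod (Nat.not_dvd_ordCompl h7 ha)
  have hB := pow_six_mod (Nat.not_dvd_ordCompl h7 hb)
  set A := ordCompl[7] a
  set B := ordCompl[7] b
  have h1 : A ^ 6 = 7 * (A ^ 6 / 7) + 1 := by
    have := Nat.div_add_mod (A ^ 6) 7
    omega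
  have h2 : B ^ 6 = 7 * (B ^ 6 / 7) + 1 := by
    have := Nat.div_add_mod (B ^ 6) 7
    omega
  set x := A ^ 6 / 7
  set y := B ^ 6 / 7
  have h3 : (A * B) ^ 6 / 7 = 7 * (x * y) + x + y := by
    rw [mul_pow, h1, h2]
    have : (7 * x + 1) * (7 * y + 1) = 7 * (7 * (x * y) + x + y) + 1 := by ring
    rw [this]
    omega
  rw [h3, pow_add, pow_add, pow_mul, zeta_pow_seven, one_pow, one_mul]

theorem not_dvd (n : ℕ) : ¬ 7 ∣ 2 ^ n + 1 := by
  have h : n = 3 * (n / 3) + n % 3 := by omega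
  have h3 : n % 3 = 0 ∨ n % 3 = 1 ∨ n % 3 = 2 := by omega
  have h8 : 2 ^ (3 * (n / 3)) % 7 = 1 := by
    rw [pow_mul, Nat.pow_mod]
    norm_num
  rw [h, pow_add]
  rcases h3 with h3 | h3 | h3 <;> rw [h3] <;> omega

/-- The value at `2 ^ n + 1` depends on `n` modulo `21` only. -/
theorem f_val (n : ℕ) : f (2 ^ n + 1) = zeta ^ (((2 ^ (n % 21) + 1) ^ 6 / 7) % 7) := by
  unfold f
  rw [(Nat.ordCompl_eq_self_iff_zero_or_not_dvd (2 ^ n + 1) (by norm_num)).mpr
    (Or.inr (not_dvd n)), zeta_pow_mod]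
  congr 1
  -- `(x / 7) % 7` depends only on `x % 49`
  have key : ∀ x : ℕ, (x / 7) % 7 = (x % 49) / 7 := by intro x; omega
  rw [key, key]
  congr 1
  have h49 : 2 ^ n % 49 = 2 ^ (n % 21) % 49 := by
    conv_lhs => rw [← Nat.div_add_mod n 21, pow_add, pow_mul, Nat.mul_mod, Nat.pow_mod]
    norm_num
  rw [Nat.pow_mod, Nat.add_mod, h49, ← Nat.add_mod, ← Nat.pow_mod]

theorem sum_zeta : 1 + zeta + zeta ^ 2 + zeta ^ 3 + zeta ^ 4 + zeta ^ 5 + zeta ^ 6 = 0 := by
  have := zeta_prim.geom_sum_eq_zero (by norm_num)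
  simpa [Finset.sum_range_succ] using this

theorem sum_period (q : ℕ) :
    ∑ j ∈ Finset.range 21, f (2 ^ (21 * q + j + 1) + 1) = 0 := by
  have h : ∀ j ∈ Finset.range 21, f (2 ^ (21 * q + j + 1) + 1)
      = zeta ^ (((2 ^ ((j + 1) % 21) + 1) ^ 6 / 7) % 7) := by
    intro j _
    rw [f_val, show 21 * q + j + 1 = 21 * q + (j + 1) by ring, Nat.mul_add_mod]
  rw [Finset.sum_congr rfl h]
  simp only [Finset.sum_range_succ, Finset.sum_range_zero]
  norm_num
  linear_combination 3 * sum_zeta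

theorem sum_blocks (B : ℕ) :
    ∑ j ∈ Finset.range (21 * B), f (2 ^ (j + 1) + 1) = 0 := by
  induction B with
  | zero => simp
  | succ B ih =>
    rw [show 21 * (B + 1) = 21 * B + 21 by ring, Finset.sum_range_add, ih, zero_add]
    exact sum_period B

theorem norm_partial_sum_le (M : ℕ) : ‖∑ j ∈ Finset.range M, f (2 ^ (j + 1) + 1)‖ ≤ 20 := by
  have hM : M = 21 * (M / 21) + M % 21 := by omega
  rw [hM, Finset.sum_range_add, sum_blocks, zero_add]
  refine (norm_sum_le _ _).trans ?_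
  have : ∀ j ∈ Finset.range (M % 21), ‖f (2 ^ (21 * (M / 21) + j + 1) + 1)‖ = 1 :=
    fun j _ => norm_f _
  rw [Finset.sum_congr rfl this, Finset.sum_const, Finset.card_range, nsmul_eq_mul, mul_one]
  have : M % 21 ≤ 20 := by omega
  exact_mod_cast this

/-- The set of all `2 ^ n + 1` with `n ≥ 1` is bad. -/
theorem result : IsBadSet {m : ℕ | ∃ n : ℕ, 1 ≤ n ∧ m = 2 ^ n + 1} := by
  have hset : {m : ℕ | ∃ n : ℕ, 1 ≤ n ∧ m = 2 ^ n + 1}
      = Set.range (fun j : ℕ => 2 ^ (j + 1) + 1) := by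
    ext m
    constructor
    · rintro ⟨n, hn, rfl⟩
      exact ⟨n - 1, by simp only [Nat.sub_add_cancel hn]⟩
    · rintro ⟨j, rfl⟩
      exact ⟨j + 1, by omega, rfl⟩
  rw [hset]
  refine isBadSet_range (g := fun j : ℕ => 2 ^ (j + 1) + 1) ?_ (by norm_num) f
    (fun k _ => norm_f k) ?_ 20 ?_
  · intro i j hij
    have h2 : 2 ^ (i + 1) < 2 ^ (j + 1) := Nat.pow_lt_pow_right (by norm_num) (by omega)
    show 2 ^ (i + 1) + 1 < 2 ^ (j + 1) + 1
    omega
  · intro d j hd
    exact f_mul (by omega) (by positivity)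
  · intro M
    exact norm_partial_sum_le M

end Pool.Agent.Results.MP_726576_nt.TwoPowPlusOneBad
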